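import Pool.Agent.N236.RT.Stm

/-!
# Project RT (helper236), part SEL (helper364): the choice of a component
-/

set_option autoImplicit false

namespace Pool.Agent.N364.RT

open MvPolynomial Pool.Agent.N236.RT UniqueFactorizationMonoid

lemma degreeOf_multiset_prod (i : Fin 2) (s : Multiset (Pol ℚ)) :
    (∀ G ∈ s, G ≠ 0) → degreeOf i s.prod = (s.map (fun G => degreeOf i G)).sum := by
  refine Multiset.induction_on s ?_ ?_
  · intro _
    rw [Multiset.prod_zero, Multiset.map_zero, Multiset.sum_zero]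
    exact degreeOf_one i
  · intro a t ih h
    have ha : a ≠ 0 := h a (Multiset.mem_cons_self a t)
    have ht : ∀ G ∈ t, G ≠ 0 := fun G hG => h G (Multiset.mem_cons_of_mem hG)
    have hp : t.prod ≠ 0 := by
      intro h0
      rw [Multiset.prod_eq_zero_iff] at h0
      exact ht 0 h0 rfl
    rw [Multiset.prod_cons, Multiset.map_cons, Multiset.sum_cons, degreeOf_mul_eq ha hp, ih ht]

lemma sum_toFinset_le [DecidableEq (Pol ℚ)] (s : Multiset (Pol ℚ)) (f : Pol ℚ → ℕ) :
    ∑ G ∈ s.toFinset, f G ≤ (s.map f).sum := by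
  rw [Finset.sum_multiset_map_count]
  refine Finset.sum_le_sum fun G hG => ?_
  have h1 : 1 ≤ s.count G := Multiset.one_le_count_iff_mem.2 (Multiset.mem_toFinset.1 hG)
  calc f G = 1 * f G := (one_mul _).symm
    _ ≤ s.count G * f G := Nat.mul_le_mul_right _ h1
    _ = s.count G • f G := (smul_eq_mul _ _).symm

theorem t_sel : Pool.Agent.N236.RT.S_SEL := by
  classical
  intro K _ _ x y P A B J hP hB hJ hev
  obtain ⟨u, hu⟩ := factors_prod hP
  have hne : ∀ G ∈ factors P, G ≠ 0 := fun G hG => (irreducible_of_factor G hG).ne_zero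
  have hp0 : (factors P).prod ≠ 0 := by
    intro h0
    rw [Multiset.prod_eq_zero_iff] at h0
    exact hne 0 h0 rfl
  have hdeg : ∀ i, ((factors P).map (fun G => degreeOf i G)).sum ≤ degreeOf i P := by
    intro i
    rw [← degreeOf_multiset_prod i _ hne]
    conv_rhs => rw [← hu]
    rw [degreeOf_mul_eq hp0 u.ne_zero]
    exact Nat.le_add_right _ _
  have h0 : degreeOf 0 P ≤ A := degreeOf_le_iff.2 fun m hm => (hB m hm).1
  have h1 : degreeOf 1 P ≤ B := degreeOf_le_iff.2 fun m hm => (hB m hm).2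
  have hsum : ∑ G ∈ (factors P).toFinset, (degreeOf 0 G + degreeOf 1 G) ≤ A + B := by
    rw [Finset.sum_add_distrib]
    exact add_le_add ((sum_toFinset_le _ _).trans ((hdeg 0).trans h0))
      ((sum_toFinset_le _ _).trans ((hdeg 1).trans h1))
  have hex : ∀ p ∈ J, ∃ G ∈ factors P, ev (x ^ p) (y ^ p) G = 0 := by
    intro p hp
    have h2 := hev p hp
    unfold ev at h2
    rw [← hu, map_mul, mul_eq_zero] at h2
    rcases h2 with h2 | h2
    · rw [map_multiset_prod, Multiset.prod_eq_zero_iff, Multiset.mem_map] at h2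
      obtain ⟨G, hG, h3⟩ := h2
      exact ⟨G, hG, h3⟩
    · exact absurd h2 (u.isUnit.map (aeval (R := ℚ) ![x ^ p, y ^ p])).ne_zero
  choose! c hc1 hc2 using hex
  by_contra hcon
  push Not at hcon
  have key : ∀ G ∈ J.image c, (J.filter fun p => c p = G).card * (A + B) <
      J.card * (degreeOf 0 G + degreeOf 1 G) := by
    intro G hG
    obtain ⟨p, hp, rfl⟩ := Finset.mem_image.1 hG
    refine hcon (c p) (J.filter fun q => c q = c p) (irreducible_of_factor _ (hc1 p hp))
      (dvd_of_mem_factors (hc1 p hp)) (Finset.filter_subset _ _)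
      ⟨p, Finset.mem_filter.2 ⟨hp, rfl⟩⟩ ?_
    intro q hq
    obtain ⟨hq1, hq2⟩ := Finset.mem_filter.1 hq
    rw [← hq2]
    exact hc2 q hq1
  have hlt := Finset.sum_lt_sum_of_nonempty (hJ.image c) key
  rw [← Finset.sum_mul, ← Finset.mul_sum] at hlt
  have hcard : ∑ G ∈ J.image c, (J.filter fun p => c p = G).card = J.card :=
    (Finset.card_eq_sum_card_image c J).symm
  rw [hcard] at hlt
  have hle : ∑ G ∈ J.image c, (degreeOf 0 G + degreeOf 1 G) ≤ A + B := by
    refine le_trans (Finset.sum_le_sum_of_subset ?_) hsum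
    intro G hG
    obtain ⟨p, hp, rfl⟩ := Finset.mem_image.1 hG
    exact Multiset.mem_toFinset.2 (hc1 p hp)
  exact absurd (hlt.trans_le (Nat.mul_le_mul_left _ hle)) (lt_irrefl _)

end Pool.Agent.N364.RT
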